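import Pool.Agent.W875.GE.Spec

/-!
# A determinant
-/

set_option autoImplicit false

namespace Pool.Agent.W67.GE

universe u

open TensorProduct MulOpposite W875.GE

section
variable {K : Type u} [Field K] {n : ℕ} {C : Type u} [CommRing C] [Algebra K C] {q : ℕ}

/-- entries divisible by `X ^ k` -/
def Dv (k : ℕ) (A : Matrix (Fin q) (Fin q) (Polynomial C)) : Prop :=
  ∀ a b, (Polynomial.X : Polynomial C) ^ k ∣ A a b

theorem Dv.mul {k l : ℕ} {A B : Matrix (Fin q) (Fin q) (Polynomial C)} (hA : Dv k A)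
    (hB : Dv l B) : Dv (k + l) (A * B) := by
  intro a b
  rw [Matrix.mul_apply, pow_add]
  exact Finset.dvd_sum fun c _ => mul_dvd_mul (hA a c) (hB c b)

theorem Dv.add {k : ℕ} {A B : Matrix (Fin q) (Fin q) (Polynomial C)} (hA : Dv k A)
    (hB : Dv k B) : Dv k (A + B) := by
  intro a b
  rw [Matrix.add_apply]
  exact dvd_add (hA a b) (hB a b)

theorem Dv.mono {k l : ℕ} {A : Matrix (Fin q) (Fin q) (Polynomial C)} (hA : Dv k A)
    (h : l ≤ k) : Dv l A := fun a b => (pow_dvd_pow _ h).trans (hA a b)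

theorem Dv.zero (A : Matrix (Fin q) (Fin q) (Polynomial C)) : Dv 0 A := by
  intro a b
  rw [pow_zero]
  exact one_dvd _

theorem Dv.of_zero (k : ℕ) : Dv k (0 : Matrix (Fin q) (Fin q) (Polynomial C)) := by
  intro a b
  rw [Matrix.zero_apply]
  exact dvd_zero _

theorem Dv.smul {k : ℕ} {A : Matrix (Fin q) (Fin q) (Polynomial C)} (c : K) (hA : Dv k A) :
    Dv k (c • A) := by
  intro a b
  rw [Matrix.smul_apply, Algebra.smul_def]
  exact (hA a b).mul_left _

theorem Dv.mono1 (Z : Matrix (Fin q) (Fin q) C) :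
    Dv 1 (Z.map (fun c => Polynomial.monomial 1 c)) := by
  intro a b
  rw [Matrix.map_apply, pow_one, ← Polynomial.C_mul_X_eq_monomial]
  exact dvd_mul_left _ _

variable (Ψ : RR K n →ₐ[K] Matrix (Fin q) (Fin q) (Polynomial C))
  (X Y : Fin n → Matrix (Fin q) (Fin q) C)
  (hX : ∀ i, Ψ (FreeAlgebra.ι K i ⊗ₜ[K] 1) = (X i).map (fun c => Polynomial.monomial 1 c))
  (hY : ∀ i, Ψ (1 ⊗ₜ[K] op (FreeAlgebra.ι K i)) = (Y i).map (fun c => Polynomial.monomial 1 c))
  (d : Fin n → FA K n →ₗ[K] RR K n) (hd : IsD d)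

include hY in
theorem dv_op (w : List (Fin n)) :
    Dv w.length (Ψ ((1 : FA K n) ⊗ₜ[K] op (wd (FreeAlgebra.ι K) w))) := by
  induction w with
  | nil => exact Dv.zero _
  | cons j w ih =>
    have e : (1 : FA K n) ⊗ₜ[K] op (wd (FreeAlgebra.ι K) (j :: w)) =
        ((1 : FA K n) ⊗ₜ[K] op (wd (FreeAlgebra.ι K) w)) *
          ((1 : FA K n) ⊗ₜ[K] op (FreeAlgebra.ι K j)) := by
      rw [Algebra.TensorProduct.tmul_mul_tmul, one_mul, ← op_mul]
      rfl
    rw [e, map_mul, List.length_cons, hY]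
    exact ih.mul (Dv.mono1 _)

include hd in
theorem d_one (i : Fin n) : d i 1 = 0 := by
  have h := hd.mul i 1 1
  rw [mul_one, op_one] at h
  have e : ((1 : FA K n) ⊗ₜ[K] (1 : (FA K n)ᵐᵒᵖ)) = 1 := rfl
  rw [e, one_mul] at h
  exact left_eq_add.mp h

include hX hY hd in
theorem dv_d (i : Fin n) (w : List (Fin n)) :
    Dv (w.length - 1) (Ψ (d i (wd (FreeAlgebra.ι K) w))) := by
  induction w with
  | nil => exact Dv.zero _
  | cons j w ih =>
    have e : wd (FreeAlgebra.ι K) (j :: w) = FreeAlgebra.ι K j * wd (FreeAlgebra.ι K) w := rfl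
    rw [e, hd.mul, map_add, map_mul, map_mul, hX, List.length_cons, Nat.add_sub_cancel]
    refine Dv.add ?_ ?_
    · exact (dv_op Ψ Y hY w).mul (Dv.zero _)
    · rcases Nat.eq_zero_or_pos w.length with h0 | h0
      · rw [h0]
        exact Dv.zero _
      · exact ((Dv.mono1 (X j)).mul ih).mono (by omega)

include hX hY hd in
theorem dv_ord (i : Fin n) (m : ℕ) {z : FA K n} (hz : z ∈ Ord K n m) :
    Dv (m - 1) (Ψ (d i z)) := by
  unfold W875.GE.Ord at hz
  induction hz using Submodule.span_induction with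
  | mem x hx =>
    obtain ⟨w, hw, rfl⟩ := hx
    exact (dv_d Ψ X Y hX hY d hd i w).mono (by omega)
  | zero =>
    rw [map_zero, map_zero]
    exact Dv.of_zero _
  | add x y _ _ hx hy =>
    rw [map_add, map_add]
    exact hx.add hy
  | smul a x _ hx =>
    rw [map_smul, map_smul]
    exact hx.smul a

/-- flattening -/
noncomputable def FF (M : Matrix (Fin n) (Fin n) (RR K n)) :
    Matrix (Fin n × Fin q) (Fin n × Fin q) (Polynomial C) :=
  Matrix.of fun i j => Ψ (M i.1 j.1) i.2 j.2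

theorem FF_one : FF Ψ 1 = 1 := by
  ext i j
  obtain ⟨i1, i2⟩ := i
  obtain ⟨j1, j2⟩ := j
  simp only [FF, Matrix.of_apply]
  by_cases h1 : i1 = j1
  · subst h1
    rw [Matrix.one_apply_eq, map_one]
    by_cases h2 : i2 = j2
    · subst h2
      rw [Matrix.one_apply_eq, Matrix.one_apply_eq]
    · rw [Matrix.one_apply_ne h2, Matrix.one_apply_ne]
      intro h
      exact h2 (congrArg Prod.snd h)
  · rw [Matrix.one_apply_ne h1, map_zero, Matrix.zero_apply, Matrix.one_apply_ne]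
    intro h
    exact h1 (congrArg Prod.fst h)

theorem FF_mul (M N : Matrix (Fin n) (Fin n) (RR K n)) : FF Ψ (M * N) = FF Ψ M * FF Ψ N := by
  ext i j
  obtain ⟨i1, i2⟩ := i
  obtain ⟨j1, j2⟩ := j
  simp only [FF, Matrix.of_apply, Matrix.mul_apply, map_sum, map_mul, Matrix.sum_apply,
    Fintype.sum_prod_type]

theorem FF_unit {M : Matrix (Fin n) (Fin n) (RR K n)} (h : IsUnit M) : IsUnit (FF Ψ M).det := by
  obtain ⟨⟨M, M', h1, h2⟩, rfl⟩ := h
  have h3 : (FF Ψ M).det * (FF Ψ M').det = 1 := by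
    rw [← Matrix.det_mul, ← FF_mul, h1, FF_one, Matrix.det_one]
  exact IsUnit.of_mul_eq_one _ h3

theorem det_congr' {ι : Type} [Fintype ι] [DecidableEq ι] (A B : Matrix ι ι (Polynomial C))
    (k : ℕ) (h : ∀ i j, (Polynomial.X : Polynomial C) ^ k ∣ A i j - B i j) :
    (Polynomial.X : Polynomial C) ^ k ∣ A.det - B.det := by
  rw [← Ideal.mem_span_singleton, ← Ideal.Quotient.eq, RingHom.map_det, RingHom.map_det]
  congr 1
  ext i j
  rw [RingHom.mapMatrix_apply, RingHom.mapMatrix_apply, Matrix.map_apply, Matrix.map_apply,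
    Ideal.Quotient.eq, Ideal.mem_span_singleton]
  exact h i j

include hX hY hd in
theorem jac_congr (α β : FA K n →ₐ[K] FA K n) (m : ℕ)
    (h : ∀ i, α (FreeAlgebra.ι K i) - β (FreeAlgebra.ι K i) ∈ Ord K n m) :
    (Polynomial.X : Polynomial C) ^ (m - 1) ∣ (FF Ψ (Jac d α)).det - (FF Ψ (Jac d β)).det := by
  apply det_congr'
  rintro ⟨i1, i2⟩ ⟨j1, j2⟩
  have h1 := dv_ord Ψ X Y hX hY d hd j1 m (h i1) i2 j2
  rw [map_sub, map_sub, Matrix.sub_apply] at h1
  exact h1

include hd in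
theorem jac_id : Jac d (AlgHom.id K (FA K n)) = 1 := by
  ext j i
  simp only [Jac, Matrix.of_apply, AlgHom.id_apply, hd.ι, Matrix.one_apply]
  by_cases h : i = j
  · rw [if_pos h, if_pos h.symm]
  · rw [if_neg h, if_neg (fun h' => h h'.symm)]

theorem ord_mono {m m' : ℕ} (h : m ≤ m') : Ord K n m' ≤ Ord K n m := by
  unfold W875.GE.Ord
  refine Submodule.span_mono ?_
  rintro a ⟨w, hw, rfl⟩
  exact ⟨w, h.trans hw, rfl⟩

end

theorem partJ1 (h : PartD2.{u}) : PartJ1.{u} := by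
  intro K _ n d hd θ hθ C _ _ _ q Ψ X Y hX hY
  have key : ∀ m : ℕ, 2 ≤ m →
      (Polynomial.X : Polynomial C) ^ (m - 1) ∣ (FF Ψ (Jac d θ)).det - 1 := by
    intro m hm
    obtain ⟨α, hα⟩ := hθ.lim m
    have h1 := FF_unit Ψ (h K n d hd α)
    rw [Polynomial.isUnit_iff] at h1
    obtain ⟨c, hc, hc'⟩ := h1
    have h2 := jac_congr Ψ X Y hX hY d hd α.toAlgHom (AlgHom.id K (FA K n)) 2 (by
      intro i
      have e : α.toAlgHom (FreeAlgebra.ι K i) - AlgHom.id K (FA K n) (FreeAlgebra.ι K i) =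
          (α (FreeAlgebra.ι K i) - θ (FreeAlgebra.ι K i)) +
            (θ (FreeAlgebra.ι K i) - FreeAlgebra.ι K i) := by
        have e' : α.toAlgHom (FreeAlgebra.ι K i) = α (FreeAlgebra.ι K i) := rfl
        rw [e', AlgHom.id_apply]
        abel
      rw [e]
      exact add_mem (ord_mono hm (hα i)) (hθ.one i))
    rw [jac_id d hd, FF_one, Matrix.det_one, ← hc'] at h2
    have h3 : c = 1 := by
      have h4 := (Polynomial.X_pow_dvd_iff.mp h2) 0 (by norm_num)
      rw [Polynomial.coeff_sub, Polynomial.coeff_C_zero, Polynomial.coeff_one_zero] at h4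
      exact sub_eq_zero.mp h4
    have h5 := jac_congr Ψ X Y hX hY d hd α.toAlgHom θ m (fun i => hα i)
    rw [← hc', h3, map_one] at h5
    rw [← dvd_neg, neg_sub]
    exact h5
  have hfin : (FF Ψ (Jac d θ)).det - 1 = 0 := by
    ext k
    have h1 := (Polynomial.X_pow_dvd_iff.mp (key (k + 2) (by omega))) k (by omega)
    rw [h1, Polynomial.coeff_zero]
  exact sub_eq_zero.mp hfin

end Pool.Agent.W67.GE
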